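import Pool.Agent.Helper10.Qc.Stmts

set_option autoImplicit false

namespace Pool.Agent.Helper10.Qc

open Pool.Agent.Helper19.Qh Pool.Agent.Helper19.Qc

/-- A function with supporting lines of nonnegative slope is monotone and convex. -/
theorem ps2_support {f : ℝ → ℝ} (h : ∀ x0, ∃ m : ℝ, 0 ≤ m ∧ ∀ x, f x0 + m * (x - x0) ≤ f x) :
    Monotone f ∧ ConvexOn ℝ Set.univ f := by
  constructor
  · intro a b hab
    obtain ⟨m, hm, H⟩ := h a
    have := H b
    have : 0 ≤ m * (b - a) := mul_nonneg hm (by linarith)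
    linarith
  · refine ⟨convex_univ, ?_⟩
    intro x _ y _ a b ha hb hab
    obtain ⟨m, hm, H⟩ := h (a • x + b • y)
    have h1 := H x
    have h2 := H y
    simp only [smul_eq_mul] at *
    have e1 := mul_le_mul_of_nonneg_left h1 ha
    have e2 := mul_le_mul_of_nonneg_left h2 hb
    have e3 : b = 1 - a := by linarith
    subst e3
    nlinarith [e1, e2]

theorem ps2_sq (x0 : ℝ) (x : ℝ) :
    (max x0 0) ^ 2 + 2 * max x0 0 * (x - x0) ≤ (max x 0) ^ 2 := by
  rcases le_total x0 0 with h | h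
  · rw [max_eq_right h]
    nlinarith [sq_nonneg (max x 0)]
  · rw [max_eq_left h]
    have h1 : x ≤ max x 0 := le_max_left _ _
    nlinarith [sq_nonneg (max x 0 - x0), mul_le_mul_of_nonneg_left h1 h]

theorem ps2_g {x : ℝ} (hx : 2 / 3 ≤ x) :
    9 * x ^ 2 * (2 * x - 1) / (6 * x - 1) = 3 * x ^ 2 - x - 1 / 6 - 1 / 6 / (6 * x - 1) := by
  obtain ⟨p, rfl⟩ : ∃ p, x = (p + 1) / 6 := ⟨6 * x - 1, by ring⟩
  have e : 6 * ((p + 1) / 6) - 1 = p := by ring
  have hp : p ≠ 0 := by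
    intro h
    subst h
    norm_num at hx
  rw [e]
  field_simp
  ring

theorem ps2_gsq {x : ℝ} (hx : 2 / 3 ≤ x) : x ^ 2 ≤ 9 * x ^ 2 * (2 * x - 1) / (6 * x - 1) := by
  have h : 0 < 6 * x - 1 := by linarith
  rw [le_div_iff₀ h]
  nlinarith [mul_nonneg (sq_nonneg x) (by linarith : (0 : ℝ) ≤ 3 * x - 2)]

/-- the tangent of the second branch -/
theorem ps2_tan {x0 x : ℝ} (h0 : 2 / 3 ≤ x0) (hx : 2 / 3 ≤ x) :
    9 * x0 ^ 2 * (2 * x0 - 1) / (6 * x0 - 1) + (6 * x0 - 1 + 1 / (6 * x0 - 1) ^ 2) * (x - x0) ≤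
      9 * x ^ 2 * (2 * x - 1) / (6 * x - 1) := by
  rw [ps2_g h0, ps2_g hx]
  have hq : 3 ≤ 6 * x0 - 1 := by linarith
  have hp : 3 ≤ 6 * x - 1 := by linarith
  have key : 3 * x ^ 2 - x - 1 / 6 - 1 / 6 / (6 * x - 1) -
      (3 * x0 ^ 2 - x0 - 1 / 6 - 1 / 6 / (6 * x0 - 1) +
        (6 * x0 - 1 + 1 / (6 * x0 - 1) ^ 2) * (x - x0)) =
      ((6 * x - 1) - (6 * x0 - 1)) ^ 2 *
        (1 / 12 - 1 / (6 * (6 * x - 1) * (6 * x0 - 1) ^ 2)) := by
    obtain ⟨p, rfl⟩ : ∃ p, x = (p + 1) / 6 := ⟨6 * x - 1, by ring⟩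
    obtain ⟨q, rfl⟩ : ∃ q, x0 = (q + 1) / 6 := ⟨6 * x0 - 1, by ring⟩
    have e : 6 * ((p + 1) / 6) - 1 = p := by ring
    have e' : 6 * ((q + 1) / 6) - 1 = q := by ring
    rw [e] at hp
    rw [e'] at hq
    have h1 : p ≠ 0 := by intro h; linarith
    have h2 : q ≠ 0 := by intro h; linarith
    rw [e, e']
    field_simp
    ring
  have hpos : 0 ≤ 1 / 12 - 1 / (6 * (6 * x - 1) * (6 * x0 - 1) ^ 2) := by
    have h3 : 12 ≤ 6 * (6 * x - 1) * (6 * x0 - 1) ^ 2 := by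
      have h4 : 9 ≤ (6 * x0 - 1) ^ 2 := by nlinarith
      nlinarith
    have := one_div_le_one_div_of_le (by norm_num : (0 : ℝ) < 12) h3
    linarith
  have := mul_nonneg (sq_nonneg ((6 * x - 1) - (6 * x0 - 1))) hpos
  linarith

theorem ps2_support_Psi (x0 : ℝ) :
    ∃ m : ℝ, 0 ≤ m ∧ ∀ x, Psi 2 x0 + m * (x - x0) ≤ Psi 2 x := by
  have hP : ∀ x, Psi 2 x = if x ≤ 2 / 3 then (max x 0) ^ 2 else
    9 * x ^ 2 * (2 * x - 1) / (6 * x - 1) := fun x => rfl
  -- the square is a minorant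
  have hmin : ∀ x, (max x 0) ^ 2 ≤ Psi 2 x := by
    intro x
    rw [hP]
    split_ifs with h
    · exact le_refl _
    · rw [not_le] at h
      rw [max_eq_left (by linarith)]
      exact ps2_gsq h.le
  by_cases h0 : x0 ≤ 2 / 3
  · refine ⟨2 * max x0 0, by positivity, fun x => ?_⟩
    rw [hP x0, if_pos h0]
    exact (ps2_sq x0 x).trans (hmin x)
  · rw [not_le] at h0
    have hq : 3 ≤ 6 * x0 - 1 := by linarith
    have hinv : 0 ≤ 1 / (6 * x0 - 1) ^ 2 := by positivity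
    refine ⟨6 * x0 - 1 + 1 / (6 * x0 - 1) ^ 2, by linarith, fun x => ?_⟩
    rw [hP x0, if_neg (not_le.mpr h0)]
    by_cases hx : x ≤ 2 / 3
    · have t1 := ps2_tan h0.le (le_refl (2 / 3 : ℝ))
      have e1 : (9 : ℝ) * (2 / 3) ^ 2 * (2 * (2 / 3) - 1) / (6 * (2 / 3) - 1) = 4 / 9 := by
        norm_num
      rw [e1] at t1
      have t2 := ps2_sq (2 / 3) x
      rw [max_eq_left (by norm_num : (0 : ℝ) ≤ 2 / 3)] at t2
      have t3 : 3 * (2 / 3 - x) ≤ (6 * x0 - 1 + 1 / (6 * x0 - 1) ^ 2) * (2 / 3 - x) :=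
        mul_le_mul_of_nonneg_right (by linarith) (by linarith)
      have t4 := hmin x
      nlinarith
    · rw [not_le] at hx
      have t1 := ps2_tan h0.le hx.le
      rw [hP x, if_neg (not_le.mpr hx)]
      exact t1

theorem ps2_num (x : ℕ) : (sS : ℝ) * Psi 2 ((x : ℝ) / sS) ≤ (F2 x : ℝ) := by
  have hS : (0 : ℝ) < (sS : ℝ) := by
    have : 0 < sS := by decide
    exact_mod_cast this
  have hP : ∀ x, Psi 2 x = if x ≤ 2 / 3 then (max x 0) ^ 2 else
    9 * x ^ 2 * (2 * x - 1) / (6 * x - 1) := fun x => rfl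
  have hdiv : ∀ a b : ℕ, 0 < b → (a : ℝ) / b ≤ ((Nat.succ (a / b) : ℕ) : ℝ) := by
    intro a b hb
    have hb' : (0 : ℝ) < b := by exact_mod_cast hb
    rw [div_le_iff₀ hb']
    have h1 : a < (a / b + 1) * b := by
      have := Nat.lt_mul_div_succ a hb
      rw [mul_comm]; exact this
    exact_mod_cast h1.le
  by_cases h : 3 * x ≤ 2 * sS
  · have hF : F2 x = Nat.succ (x * x / sS) := by
      unfold F2
      have : Nat.ble (Nat.mul 3 x) (Nat.mul 2 sS) = true := Nat.ble_eq.mpr h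
      rw [this]
      rfl
    have hy : (x : ℝ) / sS ≤ 2 / 3 := by
      rw [div_le_iff₀ hS]
      have : (3 * x : ℝ) ≤ 2 * sS := by exact_mod_cast h
      linarith
    rw [hP, if_pos hy, max_eq_left (by positivity), hF]
    have e : (sS : ℝ) * ((x : ℝ) / sS) ^ 2 = ((x * x : ℕ) : ℝ) / sS := by
      push_cast
      field_simp
    rw [e]
    exact hdiv _ _ (by decide)
  · rw [not_le] at h
    have hF : F2 x = Nat.succ (9 * (x * x) * (2 * x - sS) / ((6 * x - sS) * sS)) := by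
      unfold F2
      have : Nat.ble (Nat.mul 3 x) (Nat.mul 2 sS) = false := by
        rw [Bool.eq_false_iff]
        intro hcon
        rw [Nat.ble_eq] at hcon
        exact absurd hcon (not_le.mpr h)
      rw [this]
      rfl
    have h' : (2 : ℝ) * sS < 3 * x := by exact_mod_cast h
    have hy : ¬ (x : ℝ) / sS ≤ 2 / 3 := by
      rw [not_le, lt_div_iff₀ hS]
      linarith
    have c1 : sS ≤ 2 * x := by omega
    have c2 : sS ≤ 6 * x := by omega
    rw [hP, if_neg hy, hF]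
    have e : (sS : ℝ) * (9 * ((x : ℝ) / sS) ^ 2 * (2 * ((x : ℝ) / sS) - 1) /
        (6 * ((x : ℝ) / sS) - 1)) =
        ((9 * (x * x) * (2 * x - sS) : ℕ) : ℝ) / (((6 * x - sS) * sS : ℕ) : ℝ) := by
      rw [Nat.cast_mul, Nat.cast_mul (6 * x - sS), Nat.cast_sub c1, Nat.cast_sub c2]
      push_cast
      have d1 : (6 : ℝ) * x - sS ≠ 0 := by
        have : 0 < (6 : ℝ) * x - sS := by linarith
        exact this.ne'
      have d2 : (6 : ℝ) * ((x : ℝ) / sS) - 1 ≠ 0 := by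
        have : (6 : ℝ) * ((x : ℝ) / sS) - 1 = (6 * x - sS) / sS := by field_simp
        rw [this]
        exact div_ne_zero d1 hS.ne'
      have d3 : (6 : ℝ) * ((x : ℝ) / sS) - 1 = (6 * x - sS) / sS := by field_simp
      have d4 : (2 : ℝ) * ((x : ℝ) / sS) - 1 = (2 * x - sS) / sS := by field_simp
      rw [d3, d4]
      field_simp
    rw [e]
    apply hdiv
    apply Nat.mul_pos
    · have : sS < 6 * x := by
        have : 0 < sS := by decide
        omega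
      omega
    · decide

theorem st_PS2 : ST_PS2 := by
  obtain ⟨h1, h2⟩ := ps2_support ps2_support_Psi
  refine ⟨h1, h2, ?_, ps2_num⟩
  show (if (0 : ℝ) ≤ 2 / 3 then (max (0 : ℝ) 0) ^ 2 else _) = 0
  rw [if_pos (by norm_num)]
  simp

end Pool.Agent.Helper10.Qc
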