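import Pool.Agent.Helper10.Qc.Stmts

set_option autoImplicit false

namespace Pool.Agent.Helper10.Qc

open Pool.Agent.Helper19.Qh Pool.Agent.Helper19.Qc

theorem ps1_ell (x : ℝ) : ell 6 x = 19 / 10 * x - 8625 / 10000 ∧
    ell 7 x = 28 / 10 * x - 165 / 100 ∧ ell 8 x = 392 / 100 * x - 277 / 100 ∧
    ell 9 x = 56 / 10 * x - 466 / 100 ∧ ell 10 x = 768 / 100 * x - 726 / 100 ∧
    ell 11 x = 108 / 10 * x - 1155 / 100 ∧ ell 12 x = 132 / 10 * x - 1515 / 100 := by
  refine ⟨?_, ?_, ?_, ?_, ?_, ?_, ?_⟩ <;> simp only [ell, tabF] <;> push_cast <;> ring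

theorem ps1_le {x t : ℝ} (h0 : (max x 0) ^ 2 ≤ t) (h6 : 19 / 10 * x - 8625 / 10000 ≤ t)
    (h7 : 28 / 10 * x - 165 / 100 ≤ t) (h8 : 392 / 100 * x - 277 / 100 ≤ t)
    (h9 : 56 / 10 * x - 466 / 100 ≤ t) (h10 : 768 / 100 * x - 726 / 100 ≤ t)
    (h11 : 108 / 10 * x - 1155 / 100 ≤ t) (h12 : 132 / 10 * x - 1515 / 100 ≤ t) :
    Psi 1 x ≤ t := by
  obtain ⟨e6, e7, e8, e9, e10, e11, e12⟩ := ps1_ell x
  show max ((max x 0) ^ 2) (max (ell 6 x) (max (ell 7 x) (max (ell 8 x) (max (ell 9 x)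
      (max (ell 10 x) (max (ell 11 x) (ell 12 x))))))) ≤ t
  rw [e6, e7, e8, e9, e10, e11, e12]
  simp only [max_le_iff]
  exact ⟨h0, h6, h7, h8, h9, h10, h11, h12⟩

theorem ps1_sq_mono : Monotone fun x : ℝ => (max x 0) ^ 2 := by
  intro a b hab
  have h1 : max a 0 ≤ max b 0 := max_le_max hab (le_refl _)
  exact pow_le_pow_left₀ (le_max_right _ _) h1 2

theorem ps1_sq_convex : ConvexOn ℝ Set.univ fun x : ℝ => (max x 0) ^ 2 := by
  refine ⟨convex_univ, ?_⟩
  intro x _ y _ a b ha hb hab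
  simp only [smul_eq_mul]
  have h1 : max (a * x + b * y) 0 ≤ a * max x 0 + b * max y 0 := by
    apply max_le
    · exact add_le_add (mul_le_mul_of_nonneg_left (le_max_left _ _) ha)
        (mul_le_mul_of_nonneg_left (le_max_left _ _) hb)
    · exact add_nonneg (mul_nonneg ha (le_max_right _ _)) (mul_nonneg hb (le_max_right _ _))
  have h2 : (max (a * x + b * y) 0) ^ 2 ≤ (a * max x 0 + b * max y 0) ^ 2 :=
    pow_le_pow_left₀ (le_max_right _ _) h1 2
  refine h2.trans ?_
  have e : b = 1 - a := by linarith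
  subst e
  nlinarith [mul_nonneg (mul_nonneg ha hb) (sq_nonneg (max x 0 - max y 0))]

theorem ps1_lin_mono {s c : ℝ} (hs : 0 ≤ s) : Monotone fun x : ℝ => s * x - c := by
  intro a b hab
  have := mul_le_mul_of_nonneg_left hab hs
  show s * a - c ≤ s * b - c
  linarith

theorem ps1_lin_convex (s c : ℝ) : ConvexOn ℝ Set.univ fun x : ℝ => s * x - c := by
  refine ⟨convex_univ, ?_⟩
  intro x _ y _ a b ha hb hab
  simp only [smul_eq_mul]
  have e : b = 1 - a := by linarith
  subst e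
  apply le_of_eq
  ring

theorem ps1_fun : Psi 1 = (fun x : ℝ => (max x 0) ^ 2) ⊔ ((fun x : ℝ => 19 / 10 * x - 8625 / 10000) ⊔
    ((fun x : ℝ => 28 / 10 * x - 165 / 100) ⊔ ((fun x : ℝ => 392 / 100 * x - 277 / 100) ⊔
    ((fun x : ℝ => 56 / 10 * x - 466 / 100) ⊔ ((fun x : ℝ => 768 / 100 * x - 726 / 100) ⊔
    ((fun x : ℝ => 108 / 10 * x - 1155 / 100) ⊔ (fun x : ℝ => 132 / 10 * x - 1515 / 100))))))) := by
  funext x
  obtain ⟨e6, e7, e8, e9, e10, e11, e12⟩ := ps1_ell x
  show max ((max x 0) ^ 2) (max (ell 6 x) (max (ell 7 x) (max (ell 8 x) (max (ell 9 x)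
      (max (ell 10 x) (max (ell 11 x) (ell 12 x))))))) = _
  rw [e6, e7, e8, e9, e10, e11, e12]
  rfl

theorem ps1_mono : Monotone (Psi 1) := by
  rw [ps1_fun]
  exact ps1_sq_mono.sup ((ps1_lin_mono (by norm_num)).sup ((ps1_lin_mono (by norm_num)).sup
    ((ps1_lin_mono (by norm_num)).sup ((ps1_lin_mono (by norm_num)).sup
    ((ps1_lin_mono (by norm_num)).sup ((ps1_lin_mono (by norm_num)).sup
    (ps1_lin_mono (by norm_num))))))))

theorem ps1_convex : ConvexOn ℝ Set.univ (Psi 1) := by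
  rw [ps1_fun]
  exact ps1_sq_convex.sup ((ps1_lin_convex _ _).sup ((ps1_lin_convex _ _).sup
    ((ps1_lin_convex _ _).sup ((ps1_lin_convex _ _).sup
    ((ps1_lin_convex _ _).sup ((ps1_lin_convex _ _).sup (ps1_lin_convex _ _)))))))

theorem ps1_zero : Psi 1 0 = 0 := by
  apply le_antisymm
  · apply ps1_le <;> norm_num
  · rw [ps1_fun]
    refine le_trans ?_ (le_sup_left (a := (max (0 : ℝ) 0) ^ 2) (b := _))
    norm_num

/-- real bound for `F1` in the second case -/
theorem ps1_F1 {x : ℕ} (h : 3 * sS < 4 * x) {k r : ℕ} (hk : 8 * x / sS = k) (hr : 8 * x % sS = r) :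
    ((tabF k : ℝ) * sS + ((tabF (k + 1) - tabF k : ℕ) : ℝ) * r) / 10000 ≤ (F1 x : ℝ) := by
  have hF : F1 x = Nat.succ ((tabF k * sS + (tabF (k + 1) - tabF k) * r) / 10000) := by
    unfold F1
    have : Nat.ble (Nat.mul 4 x) (Nat.mul 3 sS) = false := by
      rw [Bool.eq_false_iff]
      intro hcon
      rw [Nat.ble_eq] at hcon
      exact absurd hcon (not_le.mpr h)
    have hforce : ∀ (n : ℕ) (f : ℕ → ℕ), force n f = f n := by
      intro n f
      cases n <;> rfl
    rw [this, cond_false, hforce]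
    show Nat.succ (Nat.div (Nat.add (Nat.mul (tabF (8 * x / sS)) sS)
        (Nat.mul (Nat.sub (tabF (Nat.succ (8 * x / sS))) (tabF (8 * x / sS)))
          (8 * x % sS))) 10000) = _
    rw [hk, hr]
    rfl
  rw [hF, div_le_iff₀ (by norm_num)]
  have h1 : tabF k * sS + (tabF (k + 1) - tabF k) * r <
      ((tabF k * sS + (tabF (k + 1) - tabF k) * r) / 10000 + 1) * 10000 := by
    have := Nat.lt_mul_div_succ (tabF k * sS + (tabF (k + 1) - tabF k) * r)
      (by norm_num : 0 < 10000)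
    rw [mul_comm (_ / 10000 + 1)]; exact this
  exact_mod_cast h1.le

theorem ps1_num (x : ℕ) (hx : x ≤ 1099511627776) :
    (sS : ℝ) * Psi 1 ((x : ℝ) / sS) ≤ (F1 x : ℝ) := by
  have hSv : (sS : ℝ) = 86973087744 := by norm_num [sS]
  have hS : (0 : ℝ) < (sS : ℝ) := by rw [hSv]; norm_num
  set y : ℝ := (x : ℝ) / sS with hy
  have hxy : (x : ℝ) = sS * y := by rw [hy]; field_simp
  have hy0 : 0 ≤ y := by positivity
  rw [← le_div_iff₀' hS]
  by_cases h : 4 * x ≤ 3 * sS
  · have hF : F1 x = Nat.succ (x * x / sS) := by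
      unfold F1
      have : Nat.ble (Nat.mul 4 x) (Nat.mul 3 sS) = true := Nat.ble_eq.mpr h
      rw [this]
      rfl
    have hy1 : y ≤ 3 / 4 := by
      have h' : (4 : ℝ) * x ≤ 3 * sS := by exact_mod_cast h
      rw [hxy] at h'
      nlinarith
    have hb : y ^ 2 ≤ (F1 x : ℝ) / sS := by
      rw [hF, le_div_iff₀ hS]
      have h1 : x * x < (x * x / sS + 1) * sS := by
        have := Nat.lt_mul_div_succ (x * x) (by decide : 0 < sS)
        rw [mul_comm (_ / sS + 1)]; exact this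
      have h2 : (x : ℝ) * x ≤ ((Nat.succ (x * x / sS) : ℕ) : ℝ) * sS := by exact_mod_cast h1.le
      rw [hxy] at h2
      have h3 : (sS : ℝ) * (y ^ 2 * sS) ≤ sS * ((Nat.succ (x * x / sS) : ℕ) : ℝ) := by
        nlinarith
      exact le_of_mul_le_mul_left h3 hS
    refine le_trans ?_ hb
    apply ps1_le
    · rw [max_eq_left hy0]
    all_goals nlinarith [mul_nonneg (sub_nonneg.mpr hy1) (sub_nonneg.mpr hy1)]
  · rw [not_le] at h
    have h' : (3 : ℝ) * sS < 4 * x := by exact_mod_cast h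
    rw [hxy] at h'
    have hy1 : 3 / 4 < y := by nlinarith
    have hy2 : y ≤ 13 := by
      have h2 : (x : ℝ) ≤ 1099511627776 := by exact_mod_cast hx
      rw [hxy, hSv] at h2
      nlinarith
    obtain ⟨k, hk⟩ : ∃ k, 8 * x / sS = k := ⟨_, rfl⟩
    obtain ⟨r, hr⟩ : ∃ r, 8 * x % sS = r := ⟨_, rfl⟩
    have hb := ps1_F1 h hk hr
    have hdm : sS * k + r = 8 * x := by
      rw [← hk, ← hr]; exact Nat.div_add_mod _ _
    have hrS : r < sS := by rw [← hr]; exact Nat.mod_lt _ (by decide)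
    have hdm' : (sS : ℝ) * k + r = 8 * (sS * y) := by rw [← hxy]; exact_mod_cast hdm
    have hrS' : (r : ℝ) < sS := by exact_mod_cast hrS
    have hr0 : (0 : ℝ) ≤ r := Nat.cast_nonneg r
    have hr1 : (r : ℝ) = sS * (8 * y - k) := by linarith
    have hk1 : (k : ℝ) ≤ 8 * y := by
      by_contra hcon
      push Not at hcon
      have : (sS : ℝ) * (8 * y - k) < 0 := mul_neg_of_pos_of_neg hS (by linarith)
      linarith
    have hk2 : 8 * y < k + 1 := by
      by_contra hcon
      push Not at hcon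
      have : (sS : ℝ) * 1 ≤ sS * (8 * y - k) := mul_le_mul_of_nonneg_left (by linarith) hS.le
      linarith
    have hk6 : 6 ≤ k := by
      by_contra hcon
      push Not at hcon
      have : (k : ℝ) ≤ 5 := by exact_mod_cast Nat.lt_succ_iff.mp hcon
      linarith
    have hb2 : ((tabF k : ℝ) + ((tabF (k + 1) - tabF k : ℕ) : ℝ) * (8 * y - k)) / 10000 ≤
        (F1 x : ℝ) / sS := by
      rw [le_div_iff₀ hS]
      refine le_trans (le_of_eq ?_) hb
      rw [hr1]; ring
    refine le_trans ?_ hb2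
    by_cases hk14 : 14 ≤ k
    · have t1 : tabF k = 1000000000000 := by
        unfold tabF
        split <;> first | omega | rfl
      have t2 : tabF (k + 1) - tabF k = 0 := by
        rw [t1]
        have : tabF (k + 1) = 1000000000000 := by
          unfold tabF
          split <;> first | omega | rfl
        rw [this]
      rw [t2, t1]
      apply ps1_le
      · rw [max_eq_left hy0]; norm_num; nlinarith
      all_goals norm_num; linarith
    · push Not at hk14
      interval_cases k <;> norm_num [tabF] at hk1 hk2 ⊢ <;> apply ps1_le <;>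
        first
        | linarith
        | (rw [max_eq_left hy0]; nlinarith)

theorem st_PS1 : ST_PS1 := ⟨ps1_mono, ps1_convex, ps1_zero, ps1_num⟩

end Pool.Agent.Helper10.Qc
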